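import Mathlib

/-!
# MP_aaaa36_nt: the average of `log gcd (a_1^n - 1, …, a_k^n - 1)`

For multiplicatively independent integers `a_1, …, a_k ≥ 2` the sum over `n ≤ T` of
`log gcd (a_1^n - 1, …, a_k^n - 1)` is at most `10 log (a_1 ⋯ a_k) T^(1 + 1/k)`.

Proof: write `log gcd = ∑ Λ(q)` over the divisors `q` of the gcd.  For an odd prime power `q` the group generated
by the `a_i` modulo `q` is cyclic; let `n_q` be its exponent.  By Cauchy-Schwarz there are at least `R^(2k)/n_q`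
coincidences modulo `q` between the products `∏ a_i^(x_i)`, `x_i < R`; for `R^k ≥ 2T` at least half of them are
between different products, and each pair of different products coincides for a set of moduli of total mass
`∑ Λ(q) ≤ R log (a_1 ⋯ a_k)`.  The powers of `2` are treated by lifting the exponent.
-/

open Finset
open scoped ArithmeticFunction.vonMangoldt

namespace Pool.Agent.Results.MP_aaaa36_nt.AverageGcd

/-- the `2`-part of `a^n - 1` is at most `a² n` -/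
private lemma two_part {a n v : ℕ} (ha : 2 ≤ a) (hn : 1 ≤ n) (h : 2 ^ v ∣ a ^ n - 1) :
    2 ^ v ≤ a ^ 2 * n := by
  have hpos : 1 ≤ a ^ 2 * n := Nat.mul_pos (by positivity) hn
  by_cases h2 : 2 ∣ a
  · rcases Nat.eq_zero_or_pos v with rfl | hv
    · simpa using hpos
    · exfalso
      have h3 : 2 ∣ a ^ n - 1 := (dvd_pow_self 2 (by omega)).trans h
      have h4 : 2 ∣ a ^ n := dvd_pow h2 (by omega)
      have h5 : 1 ≤ a ^ n := Nat.one_le_pow _ _ (by omega)
      omega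
  · have h1 : 2 ^ v ∣ a ^ (2 * n) - 1 ^ (2 * n) := by
      have h5 : a ^ n - 1 ∣ (a ^ n) ^ 2 - 1 ^ 2 := Nat.sub_dvd_pow_sub_pow _ _ _
      rw [one_pow, ← pow_mul, mul_comm n 2] at h5
      rw [one_pow]
      exact h.trans h5
    have hne : a ^ (2 * n) - 1 ^ (2 * n) ≠ 0 := by
      have : 1 < a ^ (2 * n) := Nat.one_lt_pow (by omega) (by omega)
      rw [one_pow]
      omega
    have hle := (padicValNat_dvd_iff_le hne).1 h1
    have hlte := padicValNat.pow_two_sub_pow (x := a) (y := 1) (by omega) (by omega) h2 (n := 2 * n)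
      (by omega) ⟨n, by ring⟩
    have hm : padicValNat 2 (2 * n) = 1 + padicValNat 2 n := by
      rw [padicValNat.mul (by norm_num) (by omega), padicValNat_self]
    rw [hm] at hlte
    have hv : v ≤ padicValNat 2 (a + 1) + padicValNat 2 (a - 1) + padicValNat 2 n := by omega
    have e1 : 2 ^ padicValNat 2 (a + 1) ≤ a + 1 := Nat.le_of_dvd (by omega) pow_padicValNat_dvd
    have e2 : 2 ^ padicValNat 2 (a - 1) ≤ a - 1 := Nat.le_of_dvd (by omega) pow_padicValNat_dvd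
    have e3 : 2 ^ padicValNat 2 n ≤ n := Nat.le_of_dvd (by omega) pow_padicValNat_dvd
    calc 2 ^ v ≤ 2 ^ (padicValNat 2 (a + 1) + padicValNat 2 (a - 1) + padicValNat 2 n) :=
          Nat.pow_le_pow_right (by norm_num) hv
      _ = 2 ^ padicValNat 2 (a + 1) * 2 ^ padicValNat 2 (a - 1) * 2 ^ padicValNat 2 n := by
          rw [pow_add, pow_add]
      _ ≤ (a + 1) * (a - 1) * n := Nat.mul_le_mul (Nat.mul_le_mul e1 e2) e3
      _ ≤ a ^ 2 * n := by
          refine Nat.mul_le_mul ?_ le_rfl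
          obtain ⟨b, rfl⟩ : ∃ b, a = b + 1 := ⟨a - 1, by omega⟩
          have : b + 1 - 1 = b := by omega
          rw [this]
          nlinarith

/-- `∏ a_i^(x_i)` -/
private def pw {k : ℕ} (a : Fin k → ℕ) {R : ℕ} (x : Fin k → Fin R) : ℕ := ∏ i, a i ^ (x i : ℕ)

/-- the number of coincidences mod `q` of the products `∏ a_i^(x_i)`, `x_i < R` -/
private lemma coincidences {k : ℕ} (a : Fin k → ℕ) (R q : ℕ) [NeZero q] [IsCyclic (ZMod q)ˣ]
    (α : Fin k → (ZMod q)ˣ) (hα : ∀ i, ((α i : (ZMod q)ˣ) : ZMod q) = (a i : ZMod q)) (n0 : ℕ)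
    (h0 : 0 < n0) (hn : ∀ i, α i ^ n0 = 1) :
    (((R ^ k : ℕ) : ℝ)) ^ 2 ≤ n0 *
      (((univ : Finset ((Fin k → Fin R) × (Fin k → Fin R))).filter
        (fun z => pw a z.1 ≡ pw a z.2 [MOD q])).card : ℝ) := by
  classical
  set φ : (Fin k → Fin R) → (ZMod q)ˣ := fun x => ∏ i, α i ^ (x i : ℕ) with hφ
  have hφv : ∀ x, ((φ x : (ZMod q)ˣ) : ZMod q) = ((pw a x : ℕ) : ZMod q) := by
    intro x
    rw [hφ, pw]
    push_cast
    exact prod_congr rfl fun i _ => by rw [hα]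
  have hiff : ∀ z : (Fin k → Fin R) × (Fin k → Fin R), pw a z.1 ≡ pw a z.2 [MOD q] ↔ φ z.1 = φ z.2 := by
    intro z
    rw [← ZMod.natCast_eq_natCast_iff, ← hφv, ← hφv, Units.val_inj]
  set Y : Finset (ZMod q)ˣ := univ.filter (fun y => y ^ n0 = 1) with hY
  have hYc : Y.card ≤ n0 := IsCyclic.card_pow_eq_one_le h0
  have hmem : ∀ x, φ x ∈ Y := by
    intro x
    refine mem_filter.2 ⟨mem_univ _, ?_⟩
    rw [hφ]
    show (∏ i, α i ^ (x i : ℕ)) ^ n0 = 1
    rw [← prod_pow]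
    exact prod_eq_one fun i _ => by rw [← pow_mul, mul_comm, pow_mul, hn i, one_pow]
  set f : (ZMod q)ˣ → ℕ := fun y => (univ.filter (fun x => φ x = y)).card with hf
  have hsum : ∑ y ∈ Y, f y = R ^ k := by
    have := card_eq_sum_card_fiberwise (s := (univ : Finset (Fin k → Fin R))) (t := Y) (f := φ)
      (fun x _ => hmem x)
    rw [← this]
    simp
  have hsq : ((univ : Finset ((Fin k → Fin R) × (Fin k → Fin R))).filter
      (fun z => pw a z.1 ≡ pw a z.2 [MOD q])).card = ∑ y ∈ Y, f y ^ 2 := by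
    rw [card_eq_sum_card_fiberwise (t := Y) (f := fun z : (Fin k → Fin R) × (Fin k → Fin R) => φ z.1)
      (fun z _ => hmem z.1)]
    refine sum_congr rfl fun y _ => ?_
    rw [hf, sq]
    show _ = (univ.filter (fun x => φ x = y)).card * (univ.filter (fun x => φ x = y)).card
    rw [← card_product]
    congr 1
    ext z
    simp only [mem_filter, mem_univ, true_and, mem_product, hiff]
    constructor
    · rintro ⟨h1, h2⟩
      exact ⟨h2, by rw [← h1, h2]⟩
    · rintro ⟨h1, h2⟩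
      exact ⟨by rw [h1, h2], h1⟩
  have hcs := sq_sum_le_card_mul_sum_sq (s := Y) (f := fun y => (f y : ℝ))
  have e1 : (∑ y ∈ Y, (f y : ℝ)) = ((R ^ k : ℕ) : ℝ) := by rw [← hsum]; push_cast; rfl
  have e2 : (∑ y ∈ Y, (f y : ℝ) ^ 2) = ((∑ y ∈ Y, f y ^ 2 : ℕ) : ℝ) := by push_cast; rfl
  rw [e1, e2, ← hsq] at hcs
  refine hcs.trans ?_
  exact mul_le_mul_of_nonneg_right (by exact_mod_cast hYc) (Nat.cast_nonneg _)

/-- the gcd of the `a_i^n - 1` -/
private def G {k : ℕ} (a : Fin k → ℕ) (n : ℕ) : ℕ := univ.gcd (fun i => a i ^ n - 1)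

/-- the `n` for which a given odd prime power divides all `a_i^n - 1` -/
private lemma period {k : ℕ} (a : Fin k → ℕ) (ha : ∀ i, 2 ≤ a i) (R q : ℕ) (hq : IsPrimePow q)
    (hodd : Odd q) {n1 : ℕ} (hn1 : 1 ≤ n1) (hq1 : q ∣ G a n1) :
    ∃ n0 : ℕ, 0 < n0 ∧ n0 ∣ n1 ∧ (∀ n, q ∣ G a n ↔ n0 ∣ n) ∧
      (((R ^ k : ℕ) : ℝ)) ^ 2 ≤ n0 *
        (((univ : Finset ((Fin k → Fin R) × (Fin k → Fin R))).filter
          (fun z => pw a z.1 ≡ pw a z.2 [MOD q])).card : ℝ) := by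
  classical
  obtain ⟨p, m, hp, hm, rfl⟩ := hq
  have hp' : p.Prime := hp.nat_prime
  have hp2 : p ≠ 2 := by
    rintro rfl
    exact (Nat.not_even_iff_odd.2 hodd) ((Nat.even_pow.2 ⟨even_two, hm.ne'⟩))
  have : NeZero (p ^ m) := ⟨pow_ne_zero _ hp'.ne_zero⟩
  have : IsCyclic (ZMod (p ^ m))ˣ := ZMod.isCyclic_units_of_prime_pow p hp' hp2 m
  have hdv : ∀ n, p ^ m ∣ G a n ↔ ∀ i, p ^ m ∣ a i ^ n - 1 := by
    intro n
    rw [G, Finset.dvd_gcd_iff]
    simp
  have hcop : ∀ i, Nat.Coprime (a i) (p ^ m) := by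
    intro i
    refine Nat.Coprime.pow_right m ?_
    refine ((Nat.Prime.coprime_iff_not_dvd hp').2 ?_).symm
    intro hpa
    have h1 : p ∣ a i ^ n1 - 1 := (dvd_pow_self p hm.ne').trans ((hdv n1).1 hq1 i)
    have h2 : p ∣ a i ^ n1 := dvd_pow hpa (by omega)
    have h3 : 1 ≤ a i ^ n1 := Nat.one_le_pow _ _ (by have := ha i; omega)
    have h4 : p ∣ 1 := by
      have h5 : p ∣ (a i ^ n1 - 1) + 1 := by rwa [Nat.sub_add_cancel h3]
      exact (Nat.dvd_add_right h1).1 h5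
    exact hp'.one_lt.ne' (Nat.dvd_one.1 h4)
  set α : Fin k → (ZMod (p ^ m))ˣ := fun i => ZMod.unitOfCoprime (a i) (hcop i) with hα
  have hαv : ∀ i, ((α i : (ZMod (p ^ m))ˣ) : ZMod (p ^ m)) = (a i : ZMod (p ^ m)) := by
    intro i
    rw [hα]
    simp
  have hpow : ∀ i n, p ^ m ∣ a i ^ n - 1 ↔ α i ^ n = 1 := by
    intro i n
    have h3 : 1 ≤ a i ^ n := Nat.one_le_pow _ _ (by have := ha i; omega)
    rw [← Nat.modEq_iff_dvd' h3, ← ZMod.natCast_eq_natCast_iff, ← Units.val_inj]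
    push_cast
    rw [hαv]
    exact eq_comm
  set n0 : ℕ := univ.lcm (fun i => orderOf (α i)) with hn0
  have hn0' : ∀ n, p ^ m ∣ G a n ↔ n0 ∣ n := by
    intro n
    rw [hdv, hn0, Finset.lcm_dvd_iff]
    constructor
    · intro h i _
      exact orderOf_dvd_iff_pow_eq_one.2 ((hpow i n).1 (h i))
    · intro h i
      exact (hpow i n).2 (orderOf_dvd_iff_pow_eq_one.1 (h i (mem_univ _)))
  have hd1 : n0 ∣ n1 := (hn0' n1).1 hq1
  have hpos : 0 < n0 := Nat.pos_of_dvd_of_pos hd1 hn1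
  refine ⟨n0, hpos, hd1, hn0', ?_⟩
  refine coincidences a R (p ^ m) α hαv n0 hpos fun i => ?_
  exact (hpow i n0).1 ((hdv n0).1 ((hn0' n0).2 dvd_rfl) i)

private lemma G_pos {k : ℕ} (hk : 1 ≤ k) {a : Fin k → ℕ} (ha : ∀ i, 2 ≤ a i) {n : ℕ} (hn : 1 ≤ n) : G a n ≠ 0 := by
  intro h0
  rw [G, Finset.gcd_eq_zero_iff] at h0
  have h1 := h0 ⟨0, hk⟩ (mem_univ _)
  have h2 : 1 < a ⟨0, hk⟩ ^ n := Nat.one_lt_pow (by omega) (ha _)
  omega

/-- the even prime powers dividing `G a n` contribute at most `log (a_0² n)` -/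
private lemma even_part {k : ℕ} (hk : 1 ≤ k) {a : Fin k → ℕ} (ha : ∀ i, 2 ≤ a i) {n : ℕ} (hn : 1 ≤ n) :
    ∑ q ∈ (G a n).divisors.filter (fun q => ¬ Odd q), Λ q ≤ 2 * Real.log (a ⟨0, hk⟩) + Real.log n := by
  classical
  have hG := G_pos hk ha hn
  set v := (G a n).factorization 2 with hv
  have h2v : 2 ^ v ∣ G a n := Nat.ordProj_dvd _ _
  have h1 : ∑ q ∈ (G a n).divisors.filter (fun q => ¬ Odd q), Λ q ≤ ∑ q ∈ (2 ^ v).divisors, Λ q := by
    have e : ∑ q ∈ (G a n).divisors.filter (fun q => ¬ Odd q), Λ q =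
        ∑ q ∈ ((G a n).divisors.filter (fun q => ¬ Odd q)).filter (fun q => IsPrimePow q), Λ q := by
      rw [sum_filter (p := fun q => IsPrimePow q)]
      refine sum_congr rfl fun q _ => ?_
      split_ifs with h
      · rfl
      · exact ArithmeticFunction.vonMangoldt_eq_zero_iff.2 h
    rw [e]
    refine sum_le_sum_of_subset_of_nonneg (fun q hq => ?_) (fun _ _ _ => ArithmeticFunction.vonMangoldt_nonneg)
    obtain ⟨hq1, hq2⟩ := mem_filter.1 hq
    obtain ⟨hq3, hq4⟩ := mem_filter.1 hq1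
    obtain ⟨p, m, hp, hm, rfl⟩ := hq2
    have hp' : p.Prime := hp.nat_prime
    have hp2 : p = 2 := by
      by_contra hne
      exact hq4 (Odd.pow (hp'.odd_of_ne_two hne))
    subst hp2
    refine Nat.mem_divisors.2 ⟨?_, pow_ne_zero _ two_ne_zero⟩
    exact Nat.pow_dvd_pow 2 ((Nat.Prime.pow_dvd_iff_le_factorization hp' hG).1 (Nat.dvd_of_mem_divisors hq3))
  refine h1.trans ?_
  rw [ArithmeticFunction.vonMangoldt_sum]
  have h3 : 2 ^ v ∣ a ⟨0, hk⟩ ^ n - 1 := h2v.trans (Finset.gcd_dvd (mem_univ _))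
  have h4 := two_part (ha _) hn h3
  have h5 : ((2 ^ v : ℕ) : ℝ) ≤ (a ⟨0, hk⟩ : ℝ) ^ 2 * n := by exact_mod_cast h4
  have ha0 : (0 : ℝ) < a ⟨0, hk⟩ := by have := ha ⟨0, hk⟩; exact_mod_cast (by omega : 0 < a ⟨0, hk⟩)
  have hn0 : (0 : ℝ) < n := by exact_mod_cast hn
  calc Real.log ((2 ^ v : ℕ) : ℝ) ≤ Real.log ((a ⟨0, hk⟩ : ℝ) ^ 2 * n) :=
        Real.log_le_log (by positivity) h5
    _ = 2 * Real.log (a ⟨0, hk⟩) + Real.log n := by
        rw [Real.log_mul (by positivity) (by positivity), Real.log_pow]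
        push_cast
        ring

/-- the products `∏ a_i^(x_i)` are at most `(∏ a_i)^R` -/
private lemma pw_le {k : ℕ} {a : Fin k → ℕ} (ha : ∀ i, 2 ≤ a i) {R : ℕ} (x : Fin k → Fin R) :
    pw a x ≤ (∏ i, a i) ^ R := by
  rw [pw, ← prod_pow]
  refine prod_le_prod' fun i _ => Nat.pow_le_pow_right (by have := ha i; omega) (x i).2.le

private lemma pw_pos {k : ℕ} {a : Fin k → ℕ} (ha : ∀ i, 2 ≤ a i) {R : ℕ} (x : Fin k → Fin R) :
    0 < pw a x := prod_pos fun i _ => Nat.pow_pos (by have := ha i; omega)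

/-- for a pair of different exponent vectors the moduli of coincidence have total mass at most `R log ∏ a_i` -/
private lemma mass {k : ℕ} {a : Fin k → ℕ} (ha : ∀ i, 2 ≤ a i)
    (hind : ∀ u v : Fin k → ℕ, ∏ i, a i ^ u i = ∏ i, a i ^ v i → u = v) {R : ℕ} (Q : Finset ℕ)
    {x y : Fin k → Fin R} (hxy : x ≠ y) :
    ∑ q ∈ Q.filter (fun q => pw a x ≡ pw a y [MOD q]), Λ q ≤ R * Real.log (∏ i, a i : ℕ) := by
  classical
  have hne : pw a x ≠ pw a y := by
    intro h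
    apply hxy
    have := hind (fun i => (x i : ℕ)) (fun i => (y i : ℕ)) h
    funext i
    exact Fin.ext (congrFun this i)
  set D : ℕ := ((pw a x : ℤ) - pw a y).natAbs with hD
  have hD0 : D ≠ 0 := by
    rw [hD]
    simp only [ne_eq, Int.natAbs_eq_zero, sub_eq_zero]
    exact_mod_cast hne
  have hsub : Q.filter (fun q => pw a x ≡ pw a y [MOD q]) ⊆ D.divisors := by
    intro q hq
    refine Nat.mem_divisors.2 ⟨?_, hD0⟩
    have h1 := (Nat.modEq_iff_dvd.1 (mem_filter.1 hq).2)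
    have h2 : (q : ℤ) ∣ (pw a x : ℤ) - pw a y := by
      have := dvd_neg.2 h1
      rwa [neg_sub] at this
    exact Int.natCast_dvd.1 h2
  have hDle : D ≤ (∏ i, a i) ^ R := by
    have h1 := pw_le ha x
    have h2 := pw_le ha y
    have h3 := pw_pos ha x
    have h4 := pw_pos ha y
    omega
  calc ∑ q ∈ Q.filter (fun q => pw a x ≡ pw a y [MOD q]), Λ q ≤ ∑ q ∈ D.divisors, Λ q :=
        sum_le_sum_of_subset_of_nonneg hsub (fun _ _ _ => ArithmeticFunction.vonMangoldt_nonneg)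
    _ = Real.log D := ArithmeticFunction.vonMangoldt_sum
    _ ≤ Real.log (((∏ i, a i) ^ R : ℕ) : ℝ) :=
        Real.log_le_log (by exact_mod_cast Nat.pos_of_ne_zero hD0) (by exact_mod_cast hDle)
    _ = R * Real.log (∏ i, a i : ℕ) := by
        rw [Nat.cast_pow, Real.log_pow]

/-- the odd part: `∑_{n ≤ T} ∑_{q ∣ G n, q odd} Λ q ≤ 2 R T log ∏ a_i` if `R^k ≥ 2 T` -/
private lemma odd_part {k : ℕ} (hk : 1 ≤ k) {a : Fin k → ℕ} (ha : ∀ i, 2 ≤ a i)
    (hind : ∀ u v : Fin k → ℕ, ∏ i, a i ^ u i = ∏ i, a i ^ v i → u = v) {T R : ℕ} (hT : 1 ≤ T)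
    (hR : 2 * T ≤ R ^ k) :
    ∑ n ∈ Icc 1 T, ∑ q ∈ (G a n).divisors.filter (fun q => Odd q), Λ q ≤
      2 * R * T * Real.log (∏ i, a i : ℕ) := by
  classical
  set Q : Finset ℕ := ((Icc 1 T).biUnion (fun n => (G a n).divisors)).filter
    (fun q => Odd q ∧ IsPrimePow q) with hQ
  -- rewrite as a sum over `Q`
  have h1 : ∀ n ∈ Icc 1 T, ∑ q ∈ (G a n).divisors.filter (fun q => Odd q), Λ q =
      ∑ q ∈ Q, if q ∣ G a n then Λ q else 0 := by
    intro n hn
    have hG := G_pos hk ha (mem_Icc.1 hn).1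
    rw [← sum_filter]
    symm
    refine sum_subset (fun q hq => ?_) (fun q hq hq' => ?_)
    · obtain ⟨h2, h3⟩ := mem_filter.1 hq
      exact mem_filter.2 ⟨Nat.mem_divisors.2 ⟨h3, hG⟩, (mem_filter.1 h2).2.1⟩
    · obtain ⟨h2, h3⟩ := mem_filter.1 hq
      refine ArithmeticFunction.vonMangoldt_eq_zero_iff.2 fun h4 => hq' ?_
      exact mem_filter.2 ⟨mem_filter.2 ⟨mem_biUnion.2 ⟨n, hn, h2⟩, h3, h4⟩, Nat.dvd_of_mem_divisors h2⟩
  rw [sum_congr rfl h1, sum_comm]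
  set X : Finset ((Fin k → Fin R) × (Fin k → Fin R)) := univ with hX
  set E : ℕ → ℕ := fun q => (X.filter (fun z => pw a z.1 ≡ pw a z.2 [MOD q])).card with hE
  set E' : ℕ → ℕ := fun q => (X.filter (fun z => pw a z.1 ≡ pw a z.2 [MOD q] ∧ z.1 ≠ z.2)).card with hE'
  set P : ℝ := ((R ^ k : ℕ) : ℝ) with hP
  have hPT : 2 * (T : ℝ) ≤ P := by rw [hP]; exact_mod_cast hR
  have hTr : (1 : ℝ) ≤ T := by exact_mod_cast hT
  have hP0 : 0 < P := by linarith
  have hEE : ∀ q, (E q : ℝ) = E' q + P := by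
    intro q
    have h2 : E q = E' q + R ^ k := by
      have h3 : X.filter (fun z => pw a z.1 ≡ pw a z.2 [MOD q]) =
          (X.filter (fun z => pw a z.1 ≡ pw a z.2 [MOD q] ∧ z.1 ≠ z.2)) ∪
            (univ : Finset (Fin k → Fin R)).image (fun x => (x, x)) := by
        ext z
        simp only [mem_filter, mem_union, mem_image, mem_univ, true_and, hX]
        constructor
        · intro h
          by_cases hz : z.1 = z.2
          · exact Or.inr ⟨z.1, Prod.ext rfl hz⟩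
          · exact Or.inl ⟨h, hz⟩
        · rintro (h | ⟨x, rfl⟩)
          · exact h.1
          · exact Nat.ModEq.refl _
      have h4 : Disjoint (X.filter (fun z => pw a z.1 ≡ pw a z.2 [MOD q] ∧ z.1 ≠ z.2))
          ((univ : Finset (Fin k → Fin R)).image (fun x => (x, x))) := by
        rw [disjoint_left]
        intro z hz hz'
        obtain ⟨x, -, rfl⟩ := mem_image.1 hz'
        exact (mem_filter.1 hz).2.2 rfl
      show (X.filter (fun z => pw a z.1 ≡ pw a z.2 [MOD q])).card = _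
      rw [h3, card_union_of_disjoint h4, card_image_of_injective _ (fun x y h => (Prod.mk.inj h).1)]
      simp [hE']
    rw [h2, hP]
    push_cast
    ring
  -- one modulus
  have hone : ∀ q ∈ Q, ∑ n ∈ Icc 1 T, (if q ∣ G a n then Λ q else 0) ≤
      2 * T / P ^ 2 * (Λ q * E' q) := by
    intro q hq
    obtain ⟨h2, h3, h4⟩ := mem_filter.1 hq
    obtain ⟨n1, hn1, hqn1⟩ := mem_biUnion.1 h2
    have hn1' := mem_Icc.1 hn1
    obtain ⟨n0, hn0, hn01, hper, hco⟩ := period a ha R q h4 h3 hn1'.1 (Nat.dvd_of_mem_divisors hqn1)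
    have hn0T : n0 ≤ T := (Nat.le_of_dvd (by omega) hn01).trans hn1'.2
    have hcard : ∑ n ∈ Icc 1 T, (if q ∣ G a n then Λ q else 0) = (T / n0 : ℕ) * Λ q := by
      rw [← sum_filter, sum_const, nsmul_eq_mul]
      congr 2
      rw [← Nat.Ioc_filter_dvd_card_eq_div T n0]
      congr 1
      ext n
      simp only [mem_filter, mem_Icc, mem_Ioc, hper]
      constructor
      · rintro ⟨⟨h5, h6⟩, h7⟩
        exact ⟨⟨by omega, h6⟩, h7⟩
      · rintro ⟨⟨h5, h6⟩, h7⟩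
        exact ⟨⟨by omega, h6⟩, h7⟩
    rw [hcard]
    have hn0r : (0 : ℝ) < n0 := by exact_mod_cast hn0
    have hdiv : ((T / n0 : ℕ) : ℝ) ≤ T / n0 := Nat.cast_div_le
    have hco' : P ^ 2 ≤ n0 * (E' q + P) := by
      rw [← hEE q]
      exact hco
    have hkey : (T : ℝ) / n0 ≤ 2 * T / P ^ 2 * E' q := by
      rw [div_le_iff₀ hn0r]
      have h5 : (n0 : ℝ) ≤ T := by exact_mod_cast hn0T
      have h6 : P ^ 2 ≤ 2 * (n0 * E' q) := by
        have h7 : (n0 : ℝ) * P ≤ P ^ 2 / 2 := by nlinarith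
        nlinarith
      have h8 : 2 * (T : ℝ) / P ^ 2 * E' q * n0 = T * (2 * (n0 * E' q)) / P ^ 2 := by ring
      rw [h8, le_div_iff₀ (by positivity)]
      exact mul_le_mul_of_nonneg_left h6 (by positivity)
    have hL : 0 ≤ Λ q := ArithmeticFunction.vonMangoldt_nonneg
    calc ((T / n0 : ℕ) : ℝ) * Λ q ≤ (2 * T / P ^ 2 * E' q) * Λ q :=
          mul_le_mul_of_nonneg_right (hdiv.trans hkey) hL
      _ = 2 * T / P ^ 2 * (Λ q * E' q) := by ring
  refine (sum_le_sum hone).trans ?_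
  rw [← mul_sum]
  -- double counting
  have hdc : ∑ q ∈ Q, Λ q * E' q ≤ P ^ 2 * (R * Real.log (∏ i, a i : ℕ)) := by
    have e1 : ∀ q ∈ Q, Λ q * E' q = ∑ z ∈ X, if pw a z.1 ≡ pw a z.2 [MOD q] ∧ z.1 ≠ z.2 then Λ q else 0 := by
      intro q _
      rw [← sum_filter, sum_const, nsmul_eq_mul, mul_comm]
    rw [sum_congr rfl e1, sum_comm]
    have hlog : 0 ≤ Real.log (∏ i, a i : ℕ) := Real.log_natCast_nonneg _
    have e2 : ∀ z ∈ X, ∑ q ∈ Q, (if pw a z.1 ≡ pw a z.2 [MOD q] ∧ z.1 ≠ z.2 then Λ q else 0) ≤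
        R * Real.log (∏ i, a i : ℕ) := by
      intro z _
      by_cases hz : z.1 = z.2
      · rw [sum_eq_zero (fun q _ => if_neg (fun h => h.2 hz))]
        positivity
      · have e3 : ∑ q ∈ Q, (if pw a z.1 ≡ pw a z.2 [MOD q] ∧ z.1 ≠ z.2 then Λ q else 0) =
            ∑ q ∈ Q.filter (fun q => pw a z.1 ≡ pw a z.2 [MOD q]), Λ q := by
          refine Eq.trans ?_ (sum_filter (s := Q) (p := fun q => pw a z.1 ≡ pw a z.2 [MOD q])
            (f := fun q => Λ q)).symm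
          refine sum_congr rfl fun q _ => ?_
          by_cases h : pw a z.1 ≡ pw a z.2 [MOD q]
          · rw [if_pos ⟨h, hz⟩, if_pos h]
          · rw [if_neg (fun h' => h h'.1), if_neg h]
        rw [e3]
        exact mass ha hind Q hz
    refine (sum_le_card_nsmul _ _ _ e2).trans (le_of_eq ?_)
    rw [nsmul_eq_mul, hX, card_univ, Fintype.card_prod]
    simp only [Fintype.card_fun, Fintype.card_fin]
    rw [hP]
    push_cast
    ring
  calc 2 * (T : ℝ) / P ^ 2 * ∑ q ∈ Q, Λ q * E' q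
      ≤ 2 * T / P ^ 2 * (P ^ 2 * (R * Real.log (∏ i, a i : ℕ))) :=
        mul_le_mul_of_nonneg_left hdc (by positivity)
    _ = 2 * R * T * Real.log (∏ i, a i : ℕ) := by
        field_simp

/-- **Average of `log gcd (a_1^n - 1, …, a_k^n - 1)`.**  Let `a_1, …, a_k ≥ 2` be multiplicatively independent.
Then `∑_{n ≤ T} log gcd (a_1^n - 1, …, a_k^n - 1) ≤ 10 log (a_1 ⋯ a_k) T^(1 + 1/k)` for all `T ≥ 1`. -/
theorem result (k : ℕ) (hk : 1 ≤ k) (a : Fin k → ℕ) (ha : ∀ i, 2 ≤ a i)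
    (hind : ∀ u v : Fin k → ℕ, ∏ i, a i ^ u i = ∏ i, a i ^ v i → u = v) (T : ℕ) (hT : 1 ≤ T) :
    ∑ n ∈ Finset.Icc 1 T, Real.log ((Finset.univ.gcd fun i => a i ^ n - 1 : ℕ) : ℝ) ≤
      10 * Real.log ((∏ i, a i : ℕ) : ℝ) * (T : ℝ) ^ (1 + 1 / (k : ℝ)) := by
  classical
  have hkr : (0 : ℝ) < k := by exact_mod_cast hk
  have hTr : (1 : ℝ) ≤ T := by exact_mod_cast hT
  have hT0 : (0 : ℝ) < T := by linarith
  set L : ℝ := Real.log ((∏ i, a i : ℕ) : ℝ) with hL
  set θ : ℝ := (T : ℝ) ^ (1 / (k : ℝ)) with hθ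
  have hθ1 : 1 ≤ θ := Real.one_le_rpow hTr (by positivity)
  have hpow : (T : ℝ) ^ (1 + 1 / (k : ℝ)) = T * θ := by
    rw [Real.rpow_add hT0, Real.rpow_one]
  -- the size of the exponent box
  set R : ℕ := ⌈(2 * (T : ℝ)) ^ (1 / (k : ℝ))⌉₊ with hR
  have hRge : (2 * (T : ℝ)) ^ (1 / (k : ℝ)) ≤ R := Nat.le_ceil _
  have hRk : 2 * T ≤ R ^ k := by
    have h1 : (2 * (T : ℝ)) ≤ (R : ℝ) ^ k := by
      calc (2 * (T : ℝ)) = ((2 * (T : ℝ)) ^ (1 / (k : ℝ))) ^ k := by
            rw [← Real.rpow_natCast, ← Real.rpow_mul (by positivity), one_div_mul_cancel hkr.ne', Real.rpow_one]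
        _ ≤ (R : ℝ) ^ k := pow_le_pow_left₀ (by positivity) hRge k
    exact_mod_cast h1
  have hRle : (R : ℝ) ≤ 3 * θ := by
    have h1 : (R : ℝ) < (2 * (T : ℝ)) ^ (1 / (k : ℝ)) + 1 := Nat.ceil_lt_add_one (by positivity)
    have h2 : (2 * (T : ℝ)) ^ (1 / (k : ℝ)) = (2 : ℝ) ^ (1 / (k : ℝ)) * θ := by
      rw [hθ, Real.mul_rpow (by norm_num) hT0.le]
    have h3 : (2 : ℝ) ^ (1 / (k : ℝ)) ≤ 2 := by
      calc (2 : ℝ) ^ (1 / (k : ℝ)) ≤ 2 ^ (1 : ℝ) := by
            refine Real.rpow_le_rpow_of_exponent_le (by norm_num) ?_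
            rw [div_le_one hkr]
            exact_mod_cast hk
        _ = 2 := Real.rpow_one _
    rw [h2] at h1
    nlinarith
  -- logarithms
  have hPi : (2 : ℕ) ^ k ≤ ∏ i, a i := by
    calc (2 : ℕ) ^ k = ∏ _i : Fin k, 2 := by simp
      _ ≤ ∏ i, a i := prod_le_prod' fun i _ => ha i
  have hkL : (k : ℝ) * Real.log 2 ≤ L := by
    rw [hL, ← Real.log_pow]
    refine Real.log_le_log (by positivity) ?_
    exact_mod_cast hPi
  have hL0 : 0 ≤ L := Real.log_natCast_nonneg _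
  have ha0L : Real.log (a ⟨0, hk⟩) ≤ L := by
    refine Real.log_le_log ?_ ?_
    · have := ha ⟨0, hk⟩
      exact_mod_cast (by omega : 0 < a ⟨0, hk⟩)
    · have h1 : a ⟨0, hk⟩ ≤ ∏ i, a i :=
        Finset.single_le_prod' (f := a) (fun i _ => by have := ha i; omega) (mem_univ _)
      exact_mod_cast h1
  have hlogT : Real.log T ≤ 2 * L * θ := by
    have h1 : Real.log T = k * Real.log θ := by
      rw [hθ, Real.log_rpow hT0]
      field_simp
    have h2 : Real.log θ ≤ θ := (Real.log_le_sub_one_of_pos (by linarith)).trans (by linarith)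
    have h3 : (1 : ℝ) / 2 < Real.log 2 := by linarith [Real.log_two_gt_d9]
    have h4 : (k : ℝ) ≤ 2 * L := by nlinarith
    rw [h1]
    calc (k : ℝ) * Real.log θ ≤ k * θ := mul_le_mul_of_nonneg_left h2 hkr.le
      _ ≤ 2 * L * θ := mul_le_mul_of_nonneg_right h4 (by linarith)
  -- split into odd and even moduli
  have hsplit : ∀ n ∈ Finset.Icc 1 T, Real.log ((Finset.univ.gcd fun i => a i ^ n - 1 : ℕ) : ℝ) ≤
      ∑ q ∈ (G a n).divisors.filter (fun q => Odd q), Λ q + (2 * L + 2 * L * θ) := by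
    intro n hn
    have hn' := mem_Icc.1 hn
    have h1 : Real.log ((Finset.univ.gcd fun i => a i ^ n - 1 : ℕ) : ℝ) = ∑ q ∈ (G a n).divisors, Λ q :=
      (ArithmeticFunction.vonMangoldt_sum).symm
    rw [h1, ← sum_filter_add_sum_filter_not (G a n).divisors (fun q => Odd q)]
    have h2 := even_part hk ha hn'.1
    have h3 : Real.log n ≤ Real.log T :=
      Real.log_le_log (by exact_mod_cast hn'.1) (by exact_mod_cast hn'.2)
    linarith
  refine (sum_le_sum hsplit).trans ?_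
  rw [sum_add_distrib]
  have hodd := odd_part hk ha hind hT hRk
  have hconst : ∑ _n ∈ Finset.Icc 1 T, (2 * L + 2 * L * θ) = T * (2 * L + 2 * L * θ) := by
    rw [sum_const, Nat.card_Icc, nsmul_eq_mul]
    simp
  rw [hconst, hpow]
  have h5 : 2 * (R : ℝ) * T * L ≤ 6 * (L * (T * θ)) := by
    have h6 : (R : ℝ) * (T * L) ≤ 3 * θ * (T * L) := mul_le_mul_of_nonneg_right hRle (by positivity)
    nlinarith
  have h7 : (T : ℝ) * (2 * L + 2 * L * θ) ≤ 4 * (L * (T * θ)) := by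
    have h8 : (T : ℝ) * L * 1 ≤ T * L * θ := mul_le_mul_of_nonneg_left hθ1 (by positivity)
    nlinarith
  have h9 : 2 * (R : ℝ) * T * Real.log (∏ i, a i : ℕ) = 2 * (R : ℝ) * T * L := by rw [hL]
  linarith

end Pool.Agent.Results.MP_aaaa36_nt.AverageGcd
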