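import Pool.Agent.H2.AR.Divisor

/-!
# MP_aaaa36_nt: an upper bound for `H(n)` in terms of the number of divisors
-/

namespace Pool.Agent.Results.MP_aaaa36_nt.DivisorBound

/-- With `t` the number of divisors of `n ≥ 1`: `H(n) ≤ 8 n² (17 n t)^(16 t²)`. -/
theorem result (n : ℕ) (hn : 0 < n) :
    N97cf5353.H n ≤ 8 * n ^ 2 * (17 * n * n.divisors.card) ^ (16 * n.divisors.card ^ 2) :=
  Pool.Agent.H2.AR.H_le_divisor hn

end Pool.Agent.Results.MP_aaaa36_nt.DivisorBound
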