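import Pool.Agent.H2.AR.PrimeExp

/-!
# MP_aaaa36_nt: `H(q) ≤ 120 q²` for every prime `q`
-/

namespace Pool.Agent.Results.MP_aaaa36_nt.PrimeExponents

/-- For every prime `q` there are `2 ≤ k < l ≤ 120 q²` with `gcd(k^q - 1, l^q - 1) = 1`; in
particular `H(n) ≤ 120 n²` for infinitely many `n`. -/
theorem result (q : ℕ) (hq : q.Prime) : N97cf5353.H q ≤ 120 * q ^ 2 :=
  Pool.Agent.H2.AR.H_le_prime hq

end Pool.Agent.Results.MP_aaaa36_nt.PrimeExponents
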